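import Mathlib

set_option autoImplicit false

/-!
# Almost invariant Lipschitz functions far from all invariant ones

The question (Kazhdan and Yom Din, in the Lipschitz-free setting) asks whether every `δ/10`-invariant
`f ∈ Lip₀(M)` with `L(f) = 1` is within `δ` of an invariant function. The answer is negative for
every `δ < 1`, and no other constant in place of `10` helps: for every `η > 0` there are a pointed
metric space `M`, a group `G` generated by two elements acting on `M` by isometries, and an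
`η`-invariant `f` with `L(f) = 1` whose distance to every invariant function is at least `1`.

The example: `M` is the real line with the metric `d(x, y) = ⌈|x - y|⌉ + K` for `x ≠ y`, `f(x) = x`,
and `G` is generated by two increasing bijections `a`, `b` of the line which commute with `x ↦ x + 1`
and satisfy `a ^ 2 = b ^ 3 = (x ↦ x + 1)` and `a 0 = b 0`.
-/

namespace Pool.Agent.Results.MP_35e3b8_an.NoApproximation

open scoped ENNReal

/-- The Lipschitz constant of `f`, as an extended nonnegative number. -/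
noncomputable def lipNorm {M : Type} [MetricSpace M] (f : M → ℝ) : ℝ≥0∞ :=
  ⨆ (x : M) (y : M), ENNReal.ofReal (|f x - f y| / dist x y)

/-- `f` belongs to `Lip₀(M)`, where `o` is the base point of `M`. -/
def InLip0 {M : Type} [MetricSpace M] (o : M) (f : M → ℝ) : Prop :=
  f o = 0 ∧ lipNorm f < ⊤

/-- The action of `G` on `Lip₀(M)`: `(g f)(x) = f (g⁻¹ x) - f (g⁻¹ o)`. -/
def act {M G : Type} [Group G] [MulAction G M] (o : M) (g : G) (f : M → ℝ) : M → ℝ :=
  fun x => f (g⁻¹ • x) - f (g⁻¹ • o)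

/-! ## The metric space -/

/-- The real line, to be given another metric. -/
@[ext] structure Sp (K : ℕ) where
  /-- the real number -/
  val : ℝ

open Classical in
noncomputable instance (K : ℕ) : MetricSpace (Sp K) where
  dist x y := if x = y then 0 else ((⌈|x.val - y.val|⌉ : ℤ) : ℝ) + K
  dist_self x := by simp
  dist_comm x y := by
    rw [abs_sub_comm]
    by_cases h : x = y
    · simp [h]
    · rw [if_neg h, if_neg (Ne.symm h)]
  dist_triangle x y z := by
    have hK : (0 : ℝ) ≤ K := Nat.cast_nonneg K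
    have h0 : ∀ a b : ℝ, (0 : ℝ) ≤ ((⌈|a - b|⌉ : ℤ) : ℝ) + K := fun a b => by
      have : (0 : ℤ) ≤ ⌈|a - b|⌉ := Int.ceil_nonneg (abs_nonneg _)
      have : (0 : ℝ) ≤ ((⌈|a - b|⌉ : ℤ) : ℝ) := by exact_mod_cast this
      linarith
    by_cases hxz : x = z
    · rw [if_pos hxz]
      have h1 := h0 x.val y.val
      have h2 := h0 y.val z.val
      split_ifs <;> linarith
    · rw [if_neg hxz]
      by_cases hxy : x = y
      · subst hxy
        rw [if_pos rfl, if_neg hxz, zero_add]
      · by_cases hyz : y = z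
        · subst hyz
          rw [if_pos rfl, if_neg hxy, add_zero]
        · rw [if_neg hxy, if_neg hyz]
          have h1 : ⌈|x.val - z.val|⌉ ≤ ⌈|x.val - y.val|⌉ + ⌈|y.val - z.val|⌉ := by
            rw [Int.ceil_le]
            push_cast
            exact (abs_sub_le _ _ _).trans (add_le_add (Int.le_ceil _) (Int.le_ceil _))
          have h2 : ((⌈|x.val - z.val|⌉ : ℤ) : ℝ) ≤
              ((⌈|x.val - y.val|⌉ : ℤ) : ℝ) + ((⌈|y.val - z.val|⌉ : ℤ) : ℝ) := by
            exact_mod_cast h1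
          linarith
  eq_of_dist_eq_zero := by
    intro x y h
    by_contra hxy
    change (if x = y then (0 : ℝ) else ((⌈|x.val - y.val|⌉ : ℤ) : ℝ) + K) = 0 at h
    rw [if_neg hxy] at h
    have h1 : (0 : ℝ) < |x.val - y.val| :=
      abs_pos.2 (sub_ne_zero.2 fun e => hxy (Sp.ext e))
    have h2 := Int.le_ceil (|x.val - y.val|)
    have hK : (0 : ℝ) ≤ K := Nat.cast_nonneg K
    linarith

lemma dist_eq {K : ℕ} {x y : Sp K} (h : x ≠ y) :
    dist x y = ((⌈|x.val - y.val|⌉ : ℤ) : ℝ) + K := if_neg h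

/-! ## The group -/

/-- The value of the map `φ` with `φ 0 = 0`, `φ (1/3) = 1/2`. -/
noncomputable def phiFun (x : ℝ) : ℝ := ⌊x⌋ + min (3 / 2 * Int.fract x) (3 / 4 * Int.fract x + 1 / 4)

/-- The inverse of `φ`. -/
noncomputable def psiFun (x : ℝ) : ℝ := ⌊x⌋ + max (2 / 3 * Int.fract x) (4 / 3 * Int.fract x - 1 / 3)

lemma floor_of {n : ℤ} {u : ℝ} (h0 : 0 ≤ u) (h1 : u < 1) :
    ⌊(n : ℝ) + u⌋ = n ∧ Int.fract ((n : ℝ) + u) = u := by
  have h : ⌊(n : ℝ) + u⌋ = n := by
    rw [Int.floor_eq_iff]; constructor <;> linarith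
  refine ⟨h, ?_⟩
  rw [Int.fract, h]; ring

lemma psi_phi (x : ℝ) : psiFun (phiFun x) = x := by
  have h0 := Int.fract_nonneg x
  have h1 := Int.fract_lt_one x
  have hx := Int.floor_add_fract x
  set t := Int.fract x with ht
  have hu0 : 0 ≤ min (3 / 2 * t) (3 / 4 * t + 1 / 4) := le_min (by linarith) (by linarith)
  have hu1 : min (3 / 2 * t) (3 / 4 * t + 1 / 4) < 1 :=
    lt_of_le_of_lt (min_le_right _ _) (by linarith)
  obtain ⟨e1, e2⟩ := floor_of (n := ⌊x⌋) hu0 hu1
  unfold psiFun phiFun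
  rw [← ht, e1, e2]
  have key : max (2 / 3 * min (3 / 2 * t) (3 / 4 * t + 1 / 4))
      (4 / 3 * min (3 / 2 * t) (3 / 4 * t + 1 / 4) - 1 / 3) = t := by
    rcases le_total (3 / 2 * t) (3 / 4 * t + 1 / 4) with h | h
    · rw [min_eq_left h, max_eq_left (by linarith)]; ring
    · rw [min_eq_right h, max_eq_right (by linarith)]; ring
  rw [key]; exact hx

lemma phi_psi (x : ℝ) : phiFun (psiFun x) = x := by
  have h0 := Int.fract_nonneg x
  have h1 := Int.fract_lt_one x
  have hx := Int.floor_add_fract x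
  set t := Int.fract x with ht
  have hu0 : 0 ≤ max (2 / 3 * t) (4 / 3 * t - 1 / 3) := le_max_of_le_left (by linarith)
  have hu1 : max (2 / 3 * t) (4 / 3 * t - 1 / 3) < 1 :=
    max_lt (by linarith) (by linarith)
  obtain ⟨e1, e2⟩ := floor_of (n := ⌊x⌋) hu0 hu1
  unfold psiFun phiFun
  rw [← ht, e1, e2]
  have key : min (3 / 2 * max (2 / 3 * t) (4 / 3 * t - 1 / 3))
      (3 / 4 * max (2 / 3 * t) (4 / 3 * t - 1 / 3) + 1 / 4) = t := by
    rcases le_total (4 / 3 * t - 1 / 3) (2 / 3 * t) with h | h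
    · rw [max_eq_left h, min_eq_left (by linarith)]; ring
    · rw [max_eq_right h, min_eq_right (by linarith)]; ring
  rw [key]; exact hx

lemma phi_mono : Monotone phiFun := by
  intro x y hxy
  have h0 := Int.fract_nonneg x
  have h1 := Int.fract_lt_one x
  have k0 := Int.fract_nonneg y
  have k1 := Int.fract_lt_one y
  have hx := Int.floor_add_fract x
  have hy := Int.floor_add_fract y
  unfold phiFun
  rcases (Int.floor_le_floor hxy).lt_or_eq with h | h
  · have h2 : (⌊x⌋ : ℝ) + 1 ≤ ⌊y⌋ := by exact_mod_cast h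
    have h3 : min (3 / 2 * Int.fract x) (3 / 4 * Int.fract x + 1 / 4) ≤ 1 :=
      (min_le_right _ _).trans (by linarith)
    have h4 : 0 ≤ min (3 / 2 * Int.fract y) (3 / 4 * Int.fract y + 1 / 4) :=
      le_min (by linarith) (by linarith)
    linarith
  · rw [h] at hx ⊢
    have h2 : Int.fract x ≤ Int.fract y := by linarith
    have h3 : min (3 / 2 * Int.fract x) (3 / 4 * Int.fract x + 1 / 4) ≤
        min (3 / 2 * Int.fract y) (3 / 4 * Int.fract y + 1 / 4) :=
      min_le_min (by linarith) (by linarith)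
    linarith

/-- `φ` as a degree one map of the line. -/
noncomputable def phiLift : CircleDeg1Lift :=
  ⟨⟨phiFun, phi_mono⟩, fun x => by
    change phiFun (x + 1) = phiFun x + 1
    unfold phiFun
    rw [Int.floor_add_one, Int.fract_add_one]
    push_cast
    ring⟩

lemma phi_isUnit : IsUnit phiLift := by
  rw [CircleDeg1Lift.isUnit_iff_bijective]
  exact ⟨Function.LeftInverse.injective (g := psiFun) psi_phi,
    Function.RightInverse.surjective (g := psiFun) phi_psi⟩

/-- `φ` as an invertible degree one map. -/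
noncomputable def phi : CircleDeg1Liftˣ := phi_isUnit.unit

lemma phi_apply (x : ℝ) : phi x = phiFun x := rfl

/-- The translation by `x`. -/
noncomputable abbrev tr (x : ℝ) : CircleDeg1Liftˣ :=
  CircleDeg1Lift.translate (Multiplicative.ofAdd x)

/-- `a` is the translation by `1/2`. -/
noncomputable def a : CircleDeg1Liftˣ := tr (1 / 2)

/-- `b` is conjugate to the translation by `1/3`. -/
noncomputable def b : CircleDeg1Liftˣ := phi * tr (1 / 3) * phi⁻¹

lemma tr_add (x y : ℝ) : tr x * tr y = tr (x + y) := by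
  rw [tr, tr, tr, ofAdd_add, map_mul]

lemma comm_tr_one (g : CircleDeg1Liftˣ) : g * tr 1 = tr 1 * g := by
  apply Units.ext
  apply CircleDeg1Lift.ext
  intro x
  simp only [Units.val_mul, CircleDeg1Lift.mul_apply, CircleDeg1Lift.translate_apply]
  exact CircleDeg1Lift.map_one_add _ _

lemma a_sq : a * a = tr 1 := by
  rw [a, tr_add]; norm_num

lemma b_cube : b * b * b = tr 1 := by
  have h : tr (1 / 3) * tr (1 / 3) * tr (1 / 3) = tr 1 := by
    rw [tr_add, tr_add]; norm_num
  calc b * b * b = phi * (tr (1 / 3) * tr (1 / 3) * tr (1 / 3)) * phi⁻¹ := by rw [b]; group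
    _ = tr 1 := by rw [h, comm_tr_one]; group

lemma a_zero : a (0 : ℝ) = 1 / 2 := by
  rw [a, CircleDeg1Lift.translate_apply]; norm_num

lemma b_zero : b (0 : ℝ) = 1 / 2 := by
  have h0 : phi (0 : ℝ) = 0 := by
    rw [phi_apply]; unfold phiFun; norm_num
  have h1 : (phi⁻¹ : CircleDeg1Liftˣ) (0 : ℝ) = 0 := by
    have := CircleDeg1Lift.units_inv_apply_apply phi 0
    rwa [h0] at this
  have h2 : phi (1 / 3 : ℝ) = 1 / 2 := by
    rw [phi_apply]; unfold phiFun
    have e : ⌊(1 / 3 : ℝ)⌋ = 0 := by rw [Int.floor_eq_iff]; norm_num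
    rw [Int.fract, e]; norm_num
  rw [b]
  simp only [Units.val_mul, CircleDeg1Lift.mul_apply]
  rw [h1, CircleDeg1Lift.translate_apply, add_zero]
  exact h2

/-- The group generated by `a` and `b`. -/
abbrev Gp : Type := Subgroup.closure ({a, b} : Set CircleDeg1Liftˣ)

instance (K : ℕ) : MulAction Gp (Sp K) where
  smul g x := ⟨((g : CircleDeg1Liftˣ) : ℝ → ℝ) x.val⟩
  one_smul _ := rfl
  mul_smul _ _ _ := rfl

lemma smul_val {K : ℕ} (g : Gp) (x : Sp K) :
    (g • x).val = ((g : CircleDeg1Liftˣ) : ℝ → ℝ) x.val := rfl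

lemma strictMono (g : CircleDeg1Liftˣ) : StrictMono (g : ℝ → ℝ) :=
  (CircleDeg1Lift.toOrderIso g).strictMono

/-- The number `⌈y - x⌉` is preserved. -/
lemma ceil_lt (g : CircleDeg1Liftˣ) (x y : ℝ) :
    ⌈(g : ℝ → ℝ) y - (g : ℝ → ℝ) x⌉ = ⌈y - x⌉ := by
  rw [Int.ceil_eq_iff]
  obtain ⟨h1, h2⟩ := (Int.ceil_eq_iff (z := ⌈y - x⌉) (a := y - x)).1 rfl
  have h3 : (g : ℝ → ℝ) (x + (⌈y - x⌉ - 1 : ℤ)) < (g : ℝ → ℝ) y :=
    strictMono g (by push_cast; linarith)
  have h4 : (g : ℝ → ℝ) y ≤ (g : ℝ → ℝ) (x + (⌈y - x⌉ : ℤ)) :=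
    (strictMono g).monotone (by linarith)
  rw [CircleDeg1Lift.map_add_int] at h3 h4
  push_cast at h3
  constructor <;> linarith

lemma ceil_abs (g : CircleDeg1Liftˣ) (x y : ℝ) :
    ⌈|(g : ℝ → ℝ) x - (g : ℝ → ℝ) y|⌉ = ⌈|x - y|⌉ := by
  rcases lt_trichotomy x y with h | h | h
  · have := ceil_lt g x y
    rw [abs_of_neg (sub_neg.2 h), abs_of_neg (sub_neg.2 (strictMono g h)), neg_sub, neg_sub, this]
  · rw [h]; simp
  · have := ceil_lt g y x
    rw [abs_of_pos (sub_pos.2 h), abs_of_pos (sub_pos.2 (strictMono g h)), this]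

instance (K : ℕ) : IsIsometricSMul Gp (Sp K) where
  isometry_smul g := by
    refine Isometry.of_dist_eq fun x y => ?_
    by_cases h : x = y
    · rw [h]; simp
    · have h' : g • x ≠ g • y := fun e => h (MulAction.injective g e)
      rw [dist_eq h, dist_eq h', smul_val, smul_val, ceil_abs]

lemma lipNorm_le {M : Type} [MetricSpace M] (f : M → ℝ) (c : ℝ) (hc : 0 ≤ c)
    (h : ∀ x y, |f x - f y| ≤ c * dist x y) : lipNorm f ≤ ENNReal.ofReal c := by
  refine iSup_le fun x => iSup_le fun y => ENNReal.ofReal_le_ofReal ?_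
  by_cases hxy : x = y
  · rw [hxy]; simpa using hc
  · rw [div_le_iff₀ (dist_pos.2 hxy)]
    exact h x y

/-- The function `f(x) = x`. -/
def ff (K : ℕ) : Sp K → ℝ := fun x => x.val

/-- The base point. -/
def oo (K : ℕ) : Sp K := ⟨0⟩

/-- The translation `a`, as an element of the group. -/
noncomputable def ga : Gp := ⟨a, Subgroup.subset_closure (by simp)⟩

/-- The element `b` of the group. -/
noncomputable def gb : Gp := ⟨b, Subgroup.subset_closure (by simp)⟩

lemma dist_le {K : ℕ} (x y : Sp K) : |x.val - y.val| ≤ dist x y := by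
  by_cases hxy : x = y
  · rw [hxy]; simp
  · rw [dist_eq hxy]
    have := Int.le_ceil (|x.val - y.val|)
    have hK : (0 : ℝ) ≤ K := Nat.cast_nonneg K
    linarith

lemma le_dist {K : ℕ} {x y : Sp K} (hxy : x ≠ y) : (K : ℝ) + 1 ≤ dist x y := by
  rw [dist_eq hxy]
  have h1 : (0 : ℝ) < |x.val - y.val| := abs_pos.2 (sub_ne_zero.2 fun e => hxy (Sp.ext e))
  have h2 : (1 : ℤ) ≤ ⌈|x.val - y.val|⌉ := Int.one_le_ceil_iff.2 h1
  have h3 : (1 : ℝ) ≤ ((⌈|x.val - y.val|⌉ : ℤ) : ℝ) := by exact_mod_cast h2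
  linarith

/-- The points `0` and `n`. -/
lemma lower (K : ℕ) (h : Sp K → ℝ) (hh : ∀ n : ℕ, |h ⟨(n : ℝ)⟩ - h (oo K)| = n) :
    1 ≤ lipNorm h := by
  have key : ∀ n : ℕ, 1 ≤ n → ENNReal.ofReal ((n : ℝ) / (n + K)) ≤ lipNorm h := by
    intro n hn
    refine le_trans ?_ (le_iSup₂ (f := fun x y : Sp K =>
      ENNReal.ofReal (|h x - h y| / dist x y)) ⟨(n : ℝ)⟩ (oo K))
    refine ENNReal.ofReal_le_ofReal ?_
    have hne : (⟨(n : ℝ)⟩ : Sp K) ≠ oo K := by
      intro e
      have e' : (n : ℝ) = 0 := congrArg Sp.val e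
      have : (1 : ℝ) ≤ n := by exact_mod_cast hn
      linarith
    rw [hh n, dist_eq hne]
    have e : |(⟨(n : ℝ)⟩ : Sp K).val - (oo K).val| = ((n : ℤ) : ℝ) := by
      simp [oo]
    rw [e, Int.ceil_intCast]
    push_cast
    exact le_rfl
  have lim : Filter.Tendsto (fun n : ℕ => ENNReal.ofReal ((n : ℝ) / (n + K))) Filter.atTop
      (nhds (ENNReal.ofReal 1)) := by
    refine ENNReal.tendsto_ofReal ?_
    exact tendsto_natCast_div_add_atTop (K : ℝ)
  rw [ENNReal.ofReal_one] at lim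
  refine le_of_tendsto lim ?_
  filter_upwards [Filter.eventually_ge_atTop 1] with n hn using key n hn

lemma lipNorm_ff (K : ℕ) : lipNorm (ff K) = 1 := by
  refine le_antisymm ?_ (lower K _ fun n => by simp [ff, oo])
  have := lipNorm_le (ff K) 1 zero_le_one (fun x y => by
    rw [one_mul]; exact dist_le x y)
  rwa [ENNReal.ofReal_one] at this

lemma almost (K : ℕ) (g : Gp) :
    lipNorm (act (oo K) g (ff K) - ff K) ≤ ENNReal.ofReal (1 / (K + 1)) := by
  have hK : (0 : ℝ) ≤ K := Nat.cast_nonneg K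
  refine lipNorm_le _ _ (by positivity) fun x y => ?_
  by_cases hxy : x = y
  · rw [hxy]; simp
  · have h1 : 1 ≤ 1 / ((K : ℝ) + 1) * dist x y := by
      rw [div_mul_eq_mul_div, one_mul, le_div_iff₀ (by positivity), one_mul]
      exact le_dist hxy
    refine le_trans ?_ h1
    have e : (act (oo K) g (ff K) - ff K) x - (act (oo K) g (ff K) - ff K) y =
        (((g⁻¹ : Gp) : CircleDeg1Liftˣ) : ℝ → ℝ) x.val -
          (((g⁻¹ : Gp) : CircleDeg1Liftˣ) : ℝ → ℝ) y.val - (x.val - y.val) := by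
      simp only [act, ff, Pi.sub_apply, smul_val]
      ring
    rw [e]
    set u : CircleDeg1Liftˣ := ((g⁻¹ : Gp) : CircleDeg1Liftˣ)
    have key : ∀ x y : ℝ, |(u : ℝ → ℝ) y - (u : ℝ → ℝ) x - (y - x)| ≤ 1 := by
      intro x y
      have h1 := ceil_lt u x y
      obtain ⟨h2, h3⟩ := (Int.ceil_eq_iff (z := ⌈y - x⌉) (a := y - x)).1 rfl
      obtain ⟨h4, h5⟩ := (Int.ceil_eq_iff).1 h1
      rw [abs_le]
      constructor <;> linarith
    exact key _ _

lemma invariant_eq (K : ℕ) (F : Sp K → ℝ) (hF0 : F (oo K) = 0)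
    (hF : ∀ g : Gp, act (oo K) g F = F) (n : ℕ) : F ⟨(n : ℝ)⟩ = 0 := by
  have h1 : ∀ (g : Gp) (x : Sp K), F (g • x) = F x + F (g • oo K) := by
    intro g x
    have := congrFun (hF g⁻¹) x
    simp only [act, inv_inv] at this
    linarith
  have h2 : ga • oo K = gb • oo K := Sp.ext (by
    rw [smul_val, smul_val]
    change a (0 : ℝ) = b (0 : ℝ)
    rw [a_zero, b_zero])
  have ha : ∀ x : Sp K, F (ga • ga • x) = F x + 2 * F (ga • oo K) := by
    intro x; rw [h1, h1 ga x]; ring
  have hb : ∀ x : Sp K, F (gb • gb • gb • x) = F x + 3 * F (gb • oo K) := by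
    intro x; rw [h1, h1 gb (gb • x), h1 gb x]; ring
  have ea : ∀ x : Sp K, ga • ga • x = ⟨1 + x.val⟩ := by
    intro x
    rw [← mul_smul]
    apply Sp.ext
    rw [smul_val]
    change ((a * a : CircleDeg1Liftˣ) : ℝ → ℝ) x.val = _
    rw [a_sq, CircleDeg1Lift.translate_apply]
  have eb : ∀ x : Sp K, gb • gb • gb • x = ⟨1 + x.val⟩ := by
    intro x
    rw [← mul_smul, ← mul_smul]
    apply Sp.ext
    rw [smul_val]
    change ((b * (b * b) : CircleDeg1Liftˣ) : ℝ → ℝ) x.val = _
    rw [← mul_assoc, b_cube, CircleDeg1Lift.translate_apply]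
  have h3 := ha (oo K)
  have h4 := hb (oo K)
  rw [ea] at h3
  rw [eb] at h4
  rw [← h2] at h4
  have h5 : F (ga • oo K) = 0 := by linarith
  induction n with
  | zero => simpa [oo] using hF0
  | succ n ih =>
    have h6 := ha ⟨(n : ℝ)⟩
    rw [ea, h5] at h6
    push_cast
    rw [add_comm (n : ℝ) 1, h6, ih]
    ring

/-- For every `η > 0` there are a pointed metric space `(M, d, o)`, a group `G` generated by two
elements acting on `M` by isometries, and `f ∈ Lip₀(M)` with `L(f) = 1` which is `η`-invariant,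
such that every invariant function `fbar ∈ Lip₀(M)` has `‖f - fbar‖ ≥ 1`. -/
theorem result (η : ℝ) (hη : 0 < η) :
    ∃ (M : Type) (_ : MetricSpace M) (o : M) (G : Type) (_ : Group G) (_ : MulAction G M)
      (_ : IsIsometricSMul G M) (f : M → ℝ),
      (∃ a b : G, Subgroup.closure {a, b} = ⊤) ∧
      InLip0 o f ∧ lipNorm f = 1 ∧ (∀ g : G, lipNorm (act o g f - f) ≤ ENNReal.ofReal η) ∧
      ∀ fbar : M → ℝ, InLip0 o fbar → (∀ g : G, act o g fbar = fbar) →
        1 ≤ lipNorm (f - fbar) := by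
  obtain ⟨K, hK⟩ := exists_nat_one_div_lt hη
  refine ⟨Sp K, inferInstance, oo K, Gp, inferInstance, inferInstance, inferInstance, ff K,
    ⟨ga, gb, ?_⟩, ⟨rfl, ?_⟩, lipNorm_ff K, fun g => ?_, ?_⟩
  · have := Subgroup.closure_closure_coe_preimage (k := ({a, b} : Set CircleDeg1Liftˣ))
    rw [← this]
    congr 1
    ext x
    simp only [Set.mem_insert_iff, Set.mem_singleton_iff, Set.mem_preimage]
    constructor
    · rintro (rfl | rfl)
      · exact Or.inl rfl
      · exact Or.inr rfl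
    · rintro (h | h)
      · exact Or.inl (Subtype.ext h)
      · exact Or.inr (Subtype.ext h)
  · rw [lipNorm_ff]; exact ENNReal.one_lt_top
  · exact (almost K g).trans (ENNReal.ofReal_le_ofReal hK.le)
  · intro F hF0 hF
    refine lower K _ fun n => ?_
    have h1 := invariant_eq K F hF0.1 hF n
    simp only [Pi.sub_apply, ff, h1, oo]
    have h2 : F ⟨0⟩ = 0 := hF0.1
    rw [h2]
    simp

/-- The statement asked in the question, for a given `δ`. -/
def Question (δ : ℝ) : Prop :=
  ∀ (M : Type) [MetricSpace M] (o : M) (G : Type) [Group G] [MulAction G M]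
    [IsIsometricSMul G M] (f : M → ℝ), InLip0 o f → lipNorm f = 1 →
    (∀ g : G, lipNorm (act o g f - f) ≤ ENNReal.ofReal (δ / 10)) →
    ∃ fbar : M → ℝ, InLip0 o fbar ∧ (∀ g : G, act o g fbar = fbar) ∧
      lipNorm (f - fbar) ≤ ENNReal.ofReal δ

/-- The question has a negative answer for every `δ` with `0 < δ < 1` (for `δ ≥ 1` one can take
`fbar = 0`). -/
theorem not_question (δ : ℝ) (h0 : 0 < δ) (h1 : δ < 1) : ¬ Question δ := by
  intro hQ
  obtain ⟨M, _, o, G, _, _, _, f, -, hf, hf1, hinv, hfar⟩ := result (δ / 10) (by positivity)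
  obtain ⟨fbar, hb, hbi, hbd⟩ := hQ M o G f hf hf1 hinv
  have h2 := (hfar fbar hb hbi).trans hbd
  rw [← ENNReal.ofReal_one, ENNReal.ofReal_le_ofReal_iff h0.le] at h2
  linarith

end Pool.Agent.Results.MP_35e3b8_an.NoApproximation
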